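import Mathlib

set_option autoImplicit false
open Real MeasureTheory Finset Polynomial

namespace Pool.Agent.Results.MP_c62d6e_an.NotLocal

/-- `2π`-periodic weight function -/
def IsWeight (W : ℝ → ℝ) : Prop :=
  Measurable W ∧ (∀ x, 0 ≤ W x) ∧ (∀ x, W (x + 2 * π) = W x) ∧
    IntervalIntegrable W volume (-π) π ∧ 0 < ∫ x in (-π)..π, W x

/-- `p` is a real trigonometric polynomial of degree at most `n` -/
def IsTrigPoly (n : ℕ) (p : ℝ → ℝ) : Prop :=
  ∃ a b : ℕ → ℝ, ∀ x, p x = ∑ k ∈ range (n + 1), (a k * cos (k * x) + b k * sin (k * x))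

/-- a Chebyshev-type trigonometric quadrature of degree `n` for `W` with `N` nodes exists -/
def HasQuadrature (W : ℝ → ℝ) (n N : ℕ) : Prop :=
  ∃ (θ : Fin N → ℝ) (w : ℝ), Monotone θ ∧
    ∀ p : ℝ → ℝ, IsTrigPoly n p → ∫ x in (-π)..π, p x * W x = w * ∑ j, p (θ j)

/-- `N_W(n)`: the least number of nodes (`⊤` if there is no quadrature) -/
noncomputable def minNodes (W : ℝ → ℝ) (n : ℕ) : ℕ∞ :=
  ⨅ N ∈ {N : ℕ | HasQuadrature W n N}, (N : ℕ∞)

/-- the least `N₀` such that quadratures with exactly `N` nodes exist for all `N ≥ N₀` -/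
noncomputable def minNodesBar (W : ℝ → ℝ) (n : ℕ) : ℕ∞ :=
  ⨅ N₀ ∈ {N₀ : ℕ | ∀ N, N₀ ≤ N → HasQuadrature W n N}, (N₀ : ℕ∞)

/-- every real `x` has an open neighbourhood on which `W` agrees with some `W_i` -/
def LocallyIn {m : ℕ} (Ws : Fin m → ℝ → ℝ) (W : ℝ → ℝ) : Prop :=
  ∀ x : ℝ, ∃ U : Set ℝ, IsOpen U ∧ x ∈ U ∧ ∃ i, ∀ y ∈ U, W y = Ws i y

/-- The statement asked about in Q1. -/
def Q1 : Prop :=
  ∀ (m : ℕ) (Ws : Fin m → ℝ → ℝ) (W : ℝ → ℝ), 1 ≤ m → (∀ i, IsWeight (Ws i)) → IsWeight W →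
    LocallyIn Ws W → ∃ M : ℕ, ∀ n : ℕ, 1 ≤ n →
      minNodes W n ≤ M * ⨆ i, minNodes (Ws i) n ∧
        minNodesBar W n ≤ M * ⨆ i, minNodesBar (Ws i) n

/-! ### The weights -/

/-- the density: the Chebyshev density in the variable `√2 sin θ`, on `|sin θ| < 1 / √2` -/
noncomputable def den (x : ℝ) : ℝ := |cos x| / √(cos (2 * x))

/-- our weights: `u` times the density on the arc around `0`, `v` times on the arc around `π` -/
noncomputable def wt (u v x : ℝ) : ℝ := den x * (if 0 < cos x then u else v)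

theorem den_nonneg (x : ℝ) : 0 ≤ den x := by unfold den; positivity

theorem den_sub (x : ℝ) : den (π - x) = den x := by
  unfold den
  have : 2 * (π - x) = 2 * π - 2 * x := by ring
  rw [this, cos_two_pi_sub, cos_pi_sub, abs_neg]

theorem den_zero {x : ℝ} (h : cos (2 * x) ≤ 0) : den x = 0 := by
  unfold den
  rw [sqrt_eq_zero_of_nonpos h, div_zero]

theorem den_meas : Measurable den := by
  unfold den
  fun_prop

theorem wt_meas (u v : ℝ) : Measurable (wt u v) := by
  unfold wt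
  refine den_meas.mul (Measurable.ite ?_ measurable_const measurable_const)
  exact (isOpen_lt continuous_const continuous_cos).measurableSet

theorem wt_per (u v x : ℝ) : wt u v (x + 2 * π) = wt u v x := by
  unfold wt den
  have : 2 * (x + 2 * π) = 2 * x + 2 * π + 2 * π := by ring
  rw [this, cos_add_two_pi, cos_add_two_pi, cos_add_two_pi]

theorem wt_nonneg {u v : ℝ} (hu : 0 ≤ u) (hv : 0 ≤ v) (x : ℝ) : 0 ≤ wt u v x := by
  unfold wt
  refine mul_nonneg (den_nonneg x) ?_
  split_ifs <;> assumption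

/-- the arc around `0` -/
def S : Set ℝ := Set.Ioo (-(π / 4)) (π / 4)

theorem S_meas : MeasurableSet S := measurableSet_Ioo

theorem cos_two_pos {x : ℝ} (hx : x ∈ S) : 0 < cos (2 * x) := by
  obtain ⟨h1, h2⟩ := hx
  exact cos_pos_of_mem_Ioo ⟨by linarith, by linarith⟩

theorem cos_pos_S {x : ℝ} (hx : x ∈ S) : 0 < cos x := by
  obtain ⟨h1, h2⟩ := hx
  have := pi_pos
  exact cos_pos_of_mem_Ioo ⟨by linarith, by linarith⟩

theorem inj_S : Set.InjOn (fun x => √2 * sin x) S := by
  intro x hx y hy h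
  have h2 : sin x = sin y := mul_left_cancel₀ (by positivity : √2 ≠ 0) h
  have := pi_pos
  exact injOn_sin ⟨by linarith [hx.1], by linarith [hx.2]⟩
    ⟨by linarith [hy.1], by linarith [hy.2]⟩ h2

theorem image_S : (fun x => √2 * sin x) '' S = Set.Ioo (-1) 1 := by
  have hp := pi_pos
  have h2 : √2 * √2 = 2 := mul_self_sqrt (by norm_num)
  have h20 : 0 < √2 := by positivity
  ext y
  constructor
  · rintro ⟨x, hx, rfl⟩
    have h3 := cos_two_pos hx
    rw [cos_two_mul'] at h3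
    have h4 := sin_sq_add_cos_sq x
    have h5 : (√2 * sin x) ^ 2 < 1 := by
      rw [mul_pow, sq_sqrt (by norm_num)]
      linarith
    exact abs_lt.1 ((sq_lt_one_iff_abs_lt_one _).1 h5)
  · rintro ⟨h3, h4⟩
    have h5 : |y / √2| ≤ 1 := by
      rw [abs_div, abs_of_pos h20, div_le_one h20]
      have h6 : |y| < 1 := abs_lt.2 ⟨h3, h4⟩
      have h7 : (1 : ℝ) ≤ √2 := by
        rw [← sqrt_one]
        exact sqrt_le_sqrt (by norm_num)
      linarith
    have h6 := abs_le.1 h5
    have h7 : sin (arcsin (y / √2)) = y / √2 := sin_arcsin h6.1 h6.2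
    have h8 : sin (π / 4) = √2 / 2 := sin_pi_div_four
    have h9 : y / √2 < √2 / 2 := by
      rw [div_lt_div_iff₀ h20 (by norm_num)]
      linarith
    have h10 : -(√2 / 2) < y / √2 := by
      rw [lt_div_iff₀ h20]
      linarith
    refine ⟨arcsin (y / √2), ⟨?_, ?_⟩, ?_⟩
    · rw [lt_arcsin_iff_sin_lt' ⟨by linarith, by linarith⟩, sin_neg, h8]
      exact h10
    · rw [arcsin_lt_iff_lt_sin' ⟨by linarith, by linarith⟩, h8]
      exact h9
    · simp only []
      rw [h7]
      field_simp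

theorem hasDeriv_S (x : ℝ) : HasDerivWithinAt (fun x => √2 * sin x) (√2 * cos x) S x :=
  ((hasDerivAt_sin x).const_mul _).hasDerivWithinAt

theorem jac (g : ℝ → ℝ) {x : ℝ} (hx : x ∈ S) :
    |√2 * cos x| • (g (√2 * sin x) * √(1 - (√2 * sin x) ^ 2)⁻¹) =
      √2 * (g (√2 * sin x) * den x) := by
  have h1 := cos_pos_S hx
  have h2 : 1 - (√2 * sin x) ^ 2 = cos (2 * x) := by
    rw [mul_pow, sq_sqrt (by norm_num), cos_two_mul']
    have := sin_sq_add_cos_sq x
    linarith
  rw [h2, abs_mul, abs_of_pos (by positivity : 0 < √2), smul_eq_mul, sqrt_inv]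
  unfold den
  ring

theorem int_cov (g : ℝ → ℝ) :
    ∫ x in S, g (√2 * sin x) * den x = (√2)⁻¹ * ∫ x, g x ∂Chebyshev.measureT := by
  have h := integral_image_eq_integral_abs_deriv_smul S_meas (fun x _ => hasDeriv_S x) inj_S
    (fun x => g x * √(1 - x ^ 2)⁻¹)
  rw [image_S] at h
  have h2 : ∫ x in S, |√2 * cos x| • (g (√2 * sin x) * √(1 - (√2 * sin x) ^ 2)⁻¹) =
      √2 * ∫ x in S, g (√2 * sin x) * den x := by
    rw [← integral_const_mul]
    exact setIntegral_congr_fun S_meas fun x hx => jac g hx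
  rw [Chebyshev.integral_measureT, intervalIntegral.integral_of_le (by norm_num),
    integral_Ioc_eq_integral_Ioo, h, h2, ← mul_assoc, inv_mul_cancel₀ (by positivity), one_mul]

theorem den_int : IntegrableOn den S := by
  have h := integrableOn_image_iff_integrableOn_abs_deriv_smul S_meas (fun x _ => hasDeriv_S x)
    inj_S (fun x => (1 : ℝ) * √(1 - x ^ 2)⁻¹)
  rw [image_S] at h
  have h1 : IntegrableOn (fun x : ℝ => (1 : ℝ) * √(1 - x ^ 2)⁻¹) (Set.Ioo (-1) 1) := by
    have := Chebyshev.intervalIntegrable_sqrt_one_sub_sq_inv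
    rw [intervalIntegrable_iff, Set.uIoc_of_le (by norm_num)] at this
    simp only [one_mul]
    exact this.mono_set Set.Ioo_subset_Ioc_self
  have h2 := h.1 h1
  have h3 : IntegrableOn (fun x => √2 * ((1 : ℝ) * den x)) S :=
    h2.congr_fun (fun x hx => jac (fun _ => 1) hx) S_meas
  have h4 : IntegrableOn (fun x => (√2)⁻¹ * (√2 * ((1 : ℝ) * den x))) S := h3.const_mul _
  refine h4.congr_fun (fun x _ => ?_) S_meas
  simp only [one_mul]
  rw [← mul_assoc, inv_mul_cancel₀ (by positivity), one_mul]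


/-! ### Integrals over the circle -/

theorem S_subset : S ⊆ Set.Ioc (-(π / 2)) (π / 2) := by
  intro x hx
  have := pi_pos
  exact ⟨by linarith [hx.1], by linarith [hx.2]⟩

theorem den_out {x : ℝ} (hx : x ∈ Set.Ioc (-(π / 2)) (π / 2) \ S) : den x = 0 := by
  obtain ⟨⟨h1, h2⟩, h3⟩ := hx
  apply den_zero
  by_contra h
  push Not at h
  apply h3
  have hp := pi_pos
  constructor
  · by_contra h4
    push Not at h4
    have : cos (2 * x) ≤ 0 := by
      rw [← cos_neg]
      exact cos_nonpos_of_pi_div_two_le_of_le (by linarith) (by linarith)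
    linarith
  · by_contra h4
    push Not at h4
    have : cos (2 * x) ≤ 0 := cos_nonpos_of_pi_div_two_le_of_le (by linarith) (by linarith)
    linarith

theorem den_ii : IntervalIntegrable den volume (-(π / 2)) (π / 2) := by
  have hp := pi_pos
  rw [intervalIntegrable_iff, Set.uIoc_of_le (by linarith)]
  exact den_int.of_forall_sdiff_eq_zero measurableSet_Ioc fun x hx => den_out hx

theorem int_den_mul (G : ℝ → ℝ) :
    ∫ x in (-(π / 2))..(π / 2), G x * den x = ∫ x in S, G x * den x := by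
  have hp := pi_pos
  rw [intervalIntegral.integral_of_le (by linarith)]
  exact setIntegral_eq_of_subset_of_forall_sdiff_eq_zero measurableSet_Ioc S_subset
    fun x hx => by rw [den_out hx, mul_zero]

theorem wt_right (u v : ℝ) {x : ℝ} (hx : x ∈ Set.uIcc (-(π / 2)) (π / 2)) :
    wt u v x = u * den x := by
  have hp := pi_pos
  rw [Set.uIcc_of_le (by linarith)] at hx
  unfold wt
  by_cases h : 0 < cos x
  · rw [if_pos h, mul_comm]
  · have h2 : cos x = 0 := le_antisymm (not_lt.1 h) (cos_nonneg_of_mem_Icc hx)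
    have h3 : den x = 0 := by unfold den; rw [h2]; simp
    rw [h3]; simp

theorem wt_left (u v : ℝ) {x : ℝ} (hx : x ∈ Set.uIcc (-(π / 2)) (π / 2)) :
    wt u v (π - x) = v * den x := by
  have hp := pi_pos
  rw [Set.uIcc_of_le (by linarith)] at hx
  have h2 : 0 ≤ cos x := cos_nonneg_of_mem_Icc hx
  unfold wt
  rw [den_sub, cos_pi_sub, if_neg (by linarith), mul_comm]

theorem wt_ii1 (u v : ℝ) : IntervalIntegrable (wt u v) volume (-(π / 2)) (π / 2) := by
  refine IntervalIntegrable.congr (fun x hx => ?_) (den_ii.const_mul u)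
  exact (wt_right u v (Set.uIoc_subset_uIcc hx)).symm

theorem wt_ii2 (u v : ℝ) : IntervalIntegrable (wt u v) volume (π / 2) (3 * π / 2) := by
  have h1 : IntervalIntegrable (fun x => wt u v (π - x)) volume (-(π / 2)) (π / 2) := by
    refine IntervalIntegrable.congr (fun x hx => ?_) (den_ii.const_mul v)
    exact (wt_left u v (Set.uIoc_subset_uIcc hx)).symm
  have h2 := h1.comp_sub_left π
  have e1 : π - -(π / 2) = 3 * π / 2 := by ring
  have e2 : π - π / 2 = π / 2 := by ring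
  simp only [sub_sub_cancel, e1, e2] at h2
  exact h2.symm

theorem wt_ii (u v a b : ℝ) : IntervalIntegrable (wt u v) volume a b := by
  have hper : Function.Periodic (wt u v) (2 * π) := wt_per u v
  have h : IntervalIntegrable (wt u v) volume (-(π / 2)) (-(π / 2) + 2 * π) := by
    have e : -(π / 2) + 2 * π = 3 * π / 2 := by ring
    rw [e]
    exact (wt_ii1 u v).trans (wt_ii2 u v)
  exact hper.intervalIntegrable two_pi_pos.ne' h a b

theorem int_wt (u v : ℝ) (F : ℝ → ℝ) (hF : Continuous F) (hper : ∀ x, F (x + 2 * π) = F x) :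
    ∫ x in (-π)..π, F x * wt u v x = ∫ x in S, (u * F x + v * F (π - x)) * den x := by
  have hp := pi_pos
  have hI : ∀ a b, IntervalIntegrable (fun x => F x * wt u v x) volume a b := fun a b =>
    (wt_ii u v a b).continuousOn_mul hF.continuousOn
  have hP : Function.Periodic (fun x => F x * wt u v x) (2 * π) := by
    intro x
    simp only [hper, wt_per]
  have h1 := hP.intervalIntegral_add_eq (-π) (-(π / 2))
  have e1 : -π + 2 * π = π := by ring
  have e2 : -(π / 2) + 2 * π = 3 * π / 2 := by ring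
  rw [e1, e2] at h1
  rw [h1, ← intervalIntegral.integral_add_adjacent_intervals (hI _ (π / 2)) (hI _ _)]
  have h2 := intervalIntegral.integral_comp_sub_left (a := -(π / 2)) (b := π / 2)
    (fun x => F x * wt u v x) π
  have e3 : π - -(π / 2) = 3 * π / 2 := by ring
  have e4 : π - π / 2 = π / 2 := by ring
  rw [e3, e4] at h2
  rw [← h2, ← int_den_mul]
  have hc1 : IntervalIntegrable (fun x => F x * wt u v x) volume (-(π / 2)) (π / 2) := hI _ _
  have hc2 : IntervalIntegrable (fun x => F (π - x) * wt u v (π - x)) volume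
      (-(π / 2)) (π / 2) := by
    have := (hI (3 * π / 2) (π / 2)).comp_sub_left π
    have e5 : π - 3 * π / 2 = -(π / 2) := by ring
    rwa [e5, e4] at this
  rw [← intervalIntegral.integral_add hc1 hc2]
  apply intervalIntegral.integral_congr
  intro x hx
  simp only []
  rw [wt_right u v hx, wt_left u v hx]
  ring

/-- the mass functional of one arc -/
noncomputable def mass (G : ℝ → ℝ) : ℝ := ∫ x in S, G x * den x

theorem mass_int {G : ℝ → ℝ} (hG : Continuous G) : IntegrableOn (fun x => G x * den x) S := by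
  have h := den_ii.continuousOn_mul (g := G) hG.continuousOn
  rw [intervalIntegrable_iff, Set.uIoc_of_le (by linarith [pi_pos])] at h
  exact h.mono_set S_subset

theorem mass_mono {G H : ℝ → ℝ} (hG : Continuous G) (hH : Continuous H)
    (h : ∀ x ∈ S, G x ≤ H x) : mass G ≤ mass H :=
  setIntegral_mono_on (mass_int hG) (mass_int hH) S_meas fun x hx =>
    mul_le_mul_of_nonneg_right (h x hx) (den_nonneg x)

theorem mass_const_mul (c : ℝ) (G : ℝ → ℝ) : mass (fun x => c * G x) = c * mass G := by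
  unfold mass
  rw [← integral_const_mul]
  congr 1
  funext x
  ring

theorem mass_one : mass (fun _ => 1) = (√2)⁻¹ * π := by
  unfold mass
  rw [int_cov (fun _ => 1)]
  congr 1
  have := Chebyshev.integral_eval_T_real_measureT_zero
  simpa using this

theorem mass_one_pos : 0 < mass (fun _ => 1) := by
  rw [mass_one]
  have := pi_pos
  positivity

theorem weight_wt {u v : ℝ} (hu : 0 < u) (hv : 0 < v) : IsWeight (wt u v) := by
  refine ⟨wt_meas u v, wt_nonneg hu.le hv.le, wt_per u v, wt_ii u v _ _, ?_⟩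
  have h := int_wt u v (fun _ => 1) continuous_const (fun _ => rfl)
  simp only [one_mul, mul_one] at h
  rw [h]
  have h2 : ∫ x in S, (u + v) * den x = (u + v) * mass (fun _ => 1) := by
    unfold mass
    rw [← integral_const_mul]
    simp only [one_mul]
  rw [h2]
  have := mass_one_pos
  positivity


/-! ### Trigonometric polynomials -/

theorem trig_cont {n : ℕ} {p : ℝ → ℝ} (hp : IsTrigPoly n p) : Continuous p := by
  obtain ⟨a, b, h⟩ := hp
  have : p = fun x => ∑ k ∈ range (n + 1), (a k * cos (k * x) + b k * sin (k * x)) := funext h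
  rw [this]
  fun_prop

theorem trig_per {n : ℕ} {p : ℝ → ℝ} (hp : IsTrigPoly n p) (x : ℝ) : p (x + 2 * π) = p x := by
  obtain ⟨a, b, h⟩ := hp
  rw [h, h]
  refine sum_congr rfl fun k _ => ?_
  have e : (k : ℝ) * (x + 2 * π) = k * x + k * (2 * π) := by ring
  rw [e, cos_add_nat_mul_two_pi, sin_add_nat_mul_two_pi]

/-- `p(θ) + p(π - θ)` is an algebraic polynomial in `sin θ`. -/
theorem trig_sym {n : ℕ} {p : ℝ → ℝ} (hp : IsTrigPoly n p) :
    ∃ q : ℝ[X], q.degree ≤ n ∧ ∀ x, p x + p (π - x) = q.eval (sin x) := by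
  obtain ⟨a, b, h⟩ := hp
  refine ⟨∑ k ∈ range (n + 1), C (2 * (a k * cos (k * (π / 2)) + b k * sin (k * (π / 2)))) *
    Chebyshev.T ℝ k, ?_, fun x => ?_⟩
  · rw [← natDegree_le_iff_degree_le]
    refine natDegree_sum_le_of_forall_le _ _ fun k hk => ?_
    refine (natDegree_C_mul_le _ _).trans ?_
    rw [Chebyshev.natDegree_T]
    simp only [Int.natAbs_natCast]
    exact Nat.lt_succ_iff.1 (mem_range.1 hk)
  · rw [h, h, ← sum_add_distrib, eval_finsetSum]
    refine sum_congr rfl fun k _ => ?_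
    rw [eval_mul, eval_C]
    have e1 : sin x = cos (π / 2 - x) := by rw [cos_pi_div_two_sub]
    rw [e1, Chebyshev.T_real_cos]
    have e2 : ((k : ℤ) : ℝ) = k := by simp
    rw [e2]
    have c1 : cos (k * x) = cos (k * (π / 2)) * cos (k * (π / 2 - x)) +
        sin (k * (π / 2)) * sin (k * (π / 2 - x)) := by
      rw [← cos_sub]; congr 1; ring
    have c2 : cos (k * (π - x)) = cos (k * (π / 2)) * cos (k * (π / 2 - x)) -
        sin (k * (π / 2)) * sin (k * (π / 2 - x)) := by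
      rw [← cos_add]; congr 1; ring
    have s1 : sin (k * x) = sin (k * (π / 2)) * cos (k * (π / 2 - x)) -
        cos (k * (π / 2)) * sin (k * (π / 2 - x)) := by
      rw [← sin_sub]; congr 1; ring
    have s2 : sin (k * (π - x)) = sin (k * (π / 2)) * cos (k * (π / 2 - x)) +
        cos (k * (π / 2)) * sin (k * (π / 2 - x)) := by
      rw [← sin_add]; congr 1; ring
    rw [c1, c2, s1, s2]
    ring

/-- algebraic polynomials in `cos θ` are trigonometric polynomials -/
theorem trig_cos {n : ℕ} (P : ℝ[X]) (hP : P.natDegree ≤ n) :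
    IsTrigPoly n fun x => P.eval (cos x) := by
  have hmem : P ∈ degreeLT ℝ (n + 1) := by
    rw [mem_degreeLT]
    exact (natDegree_le_iff_degree_le.1 hP).trans_lt (by exact_mod_cast Nat.lt_succ_self n)
  rw [← Sequence.span_degreeLT (Chebyshev.chebyshevTsequence ℝ) (by simp),
    show Set.Iio (n + 1) = ((Finset.range (n + 1) : Finset ℕ) : Set ℕ) by simp,
    Submodule.mem_span_image_finset_iff_exists_fun'] at hmem
  obtain ⟨c, hc⟩ := hmem
  refine ⟨c, fun _ => 0, fun x => ?_⟩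
  rw [← hc]
  simp only [eval_finsetSum, eval_smul, smul_eq_mul, zero_mul, add_zero]
  refine sum_congr rfl fun k _ => ?_
  congr 1
  simp [Chebyshev.chebyshevTsequence]

/-! ### The quadrature for the symmetric weight -/

theorem quad_sym (u : ℝ) (n k : ℕ) (hk : k ≠ 0) (hn : n < 2 * k) :
    HasQuadrature (wt u u) n (k * 2) := by
  classical
  set t : ℕ → ℝ := fun i => cos ((2 * i + 1) / (2 * k) * π) with ht
  have h20 : 0 < √2 := by positivity
  have ht1 : ∀ i, sin (arcsin (t i / √2)) = t i / √2 := by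
    intro i
    have h1 : |t i / √2| ≤ 1 := by
      rw [abs_div, abs_of_pos h20, div_le_one h20]
      have h6 : |t i| ≤ 1 := abs_cos_le_one _
      have h7 : (1 : ℝ) ≤ √2 := by
        rw [← sqrt_one]
        exact sqrt_le_sqrt (by norm_num)
      linarith
    have h2 := abs_le.1 h1
    exact sin_arcsin h2.1 h2.2
  set θ : Fin k × Bool → ℝ := fun i =>
    if i.2 then arcsin (t i.1 / √2) else π - arcsin (t i.1 / √2) with hθ
  have hc : Fintype.card (Fin k × Bool) = k * 2 := by simp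
  set e : Fin (k * 2) ≃ Fin k × Bool := Fintype.equivOfCardEq (by simp) with he
  set f : Fin (k * 2) → ℝ := θ ∘ e with hf
  refine ⟨f ∘ Tuple.sort f, u * ((√2)⁻¹ * (π / k)), Tuple.monotone_sort f, fun p hp => ?_⟩
  have hs : ∑ j, p ((f ∘ Tuple.sort f) j) = ∑ i, p (θ i) := by
    have h5 : ∑ j, p ((f ∘ Tuple.sort f) j) = ∑ j, p (f j) :=
      Equiv.sum_comp (Tuple.sort f) (fun j => p (f j))
    rw [h5]
    exact Equiv.sum_comp e (fun i => p (θ i))
  rw [hs, int_wt u u p (trig_cont hp) (trig_per hp)]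
  obtain ⟨q, hq, hpq⟩ := trig_sym hp
  set Q : ℝ[X] := q.comp (C (√2)⁻¹ * X) with hQ
  have hQev : ∀ y : ℝ, Q.eval y = q.eval ((√2)⁻¹ * y) := by
    intro y
    rw [hQ, eval_comp]
    simp
  have hQdeg : Q.degree < 2 * k := by
    have h1 : q.natDegree ≤ n := natDegree_le_iff_degree_le.2 hq
    have h2 : Q.natDegree ≤ n := by
      rw [hQ]
      refine natDegree_comp_le.trans ?_
      have : (C (√2)⁻¹ * X : ℝ[X]).natDegree ≤ 1 := natDegree_C_mul_le _ _ |>.trans natDegree_X_le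
      calc q.natDegree * (C (√2)⁻¹ * X : ℝ[X]).natDegree ≤ n * 1 := Nat.mul_le_mul h1 this
        _ = n := by ring
    refine (natDegree_le_iff_degree_le.1 h2).trans_lt ?_
    exact_mod_cast hn
  have h1 : ∫ x in S, (u * p x + u * p (π - x)) * den x =
      u * ∫ x in S, Q.eval (√2 * sin x) * den x := by
    rw [← integral_const_mul]
    congr 1
    funext x
    rw [hQev, ← mul_assoc (√2)⁻¹, inv_mul_cancel₀ h20.ne', one_mul, ← hpq x]
    ring
  rw [h1, int_cov (fun y => Q.eval y), Chebyshev.integral_eq_sumZeroes hk hQdeg,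
    Chebyshev.sumZeroes]
  have h2 : ∑ i ∈ range k, Q.eval (cos ((2 * i + 1) / (2 * k) * π)) = ∑ i, p (θ i) := by
    rw [Fintype.sum_prod_type, ← Fin.sum_univ_eq_sum_range
      (fun i => Q.eval (cos ((2 * i + 1) / (2 * k) * π))) k]
    refine sum_congr rfl fun i _ => ?_
    change Q.eval (t i) = _
    simp only [Fintype.sum_bool, hθ, if_true, Bool.false_eq_true, if_false]
    rw [hpq, ht1, hQev, div_eq_inv_mul]
  rw [h2]
  ring

/-! ### Iterates of `(3 x - x ^ 3) / 2` -/

/-- the iterates of `(3 x - x ^ 3) / 2` as polynomials -/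
noncomputable def Pj : ℕ → ℝ[X]
  | 0 => X
  | j + 1 => (C (1 / 2 : ℝ) * (C (3 : ℝ) * X - X ^ 3) : ℝ[X]).comp (Pj j)

theorem Pj_succ (j : ℕ) (x : ℝ) :
    (Pj (j + 1)).eval x = (3 * (Pj j).eval x - (Pj j).eval x ^ 3) / 2 := by
  simp only [Pj, eval_comp, eval_mul, eval_C, eval_sub, eval_pow, eval_X]
  ring

theorem Pj_deg (j : ℕ) : (Pj j).natDegree ≤ 3 ^ j := by
  induction j with
  | zero => simp [Pj]
  | succ j ih =>
    have h1 : (C (1 / 2) * (C 3 * X - X ^ 3) : ℝ[X]).natDegree ≤ 3 := by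
      refine (natDegree_C_mul_le _ _).trans ?_
      refine (natDegree_sub_le _ _).trans ?_
      rw [natDegree_X_pow]
      refine max_le ?_ le_rfl
      exact (natDegree_C_mul_le _ _).trans (natDegree_X_le.trans (by norm_num))
    calc (Pj (j + 1)).natDegree ≤ _ := natDegree_comp_le
      _ ≤ 3 * 3 ^ j := Nat.mul_le_mul h1 ih
      _ = 3 ^ (j + 1) := by ring

theorem Pj_neg (j : ℕ) (x : ℝ) : (Pj j).eval (-x) = -(Pj j).eval x := by
  induction j with
  | zero => simp [Pj]
  | succ j ih => rw [Pj_succ, Pj_succ, ih]; ring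

theorem Pj_defect (j : ℕ) {x : ℝ} (hx : x ^ 2 ≤ 1) :
    0 ≤ 1 - (Pj j).eval x ^ 2 ∧ 1 - (Pj j).eval x ^ 2 ≤ (1 - x ^ 2) ^ 2 ^ j := by
  induction j with
  | zero => simp [Pj, hx]
  | succ j ih =>
    obtain ⟨h1, h2⟩ := ih
    rw [Pj_succ]
    set y := (Pj j).eval x with hy
    have e : 1 - ((3 * y - y ^ 3) / 2) ^ 2 = (1 - y ^ 2) ^ 2 * (3 + (1 - y ^ 2)) / 4 := by ring
    have hy2 : 1 - y ^ 2 ≤ 1 := by nlinarith [sq_nonneg y]
    rw [e]
    constructor
    · positivity
    · have h3 : (1 - y ^ 2) ^ 2 * (3 + (1 - y ^ 2)) / 4 ≤ (1 - y ^ 2) ^ 2 := by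
        nlinarith [sq_nonneg (1 - y ^ 2)]
      refine h3.trans ?_
      have h4 : (1 - x ^ 2) ^ 2 ^ (j + 1) = ((1 - x ^ 2) ^ 2 ^ j) ^ 2 := by
        rw [← pow_mul, ← pow_succ]
      rw [h4]
      exact pow_le_pow_left₀ h1 h2 2

theorem Pj_nonneg (j : ℕ) {x : ℝ} (hx : x ^ 2 ≤ 1) (h0 : 0 ≤ x) : 0 ≤ (Pj j).eval x := by
  induction j with
  | zero => simpa [Pj] using h0
  | succ j ih =>
    rw [Pj_succ]
    have h1 := (Pj_defect j hx).1
    set y := (Pj j).eval x with hy
    nlinarith [mul_nonneg ih h1]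


/-! ### The lower bound -/

/-- the defect on the arc -/
noncomputable def dl (j : ℕ) : ℝ := (1 / 2) ^ 2 ^ j

theorem arc_bounds (j : ℕ) {x : ℝ} (hx : x ∈ S) :
    0 ≤ (Pj j).eval (cos x) ∧ (Pj j).eval (cos x) ≤ 1 ∧ 1 - dl j ≤ (Pj j).eval (cos x) ∧
      1 - (Pj j).eval (cos x) ^ 2 ≤ dl j := by
  have h1 := cos_pos_S hx
  have h2 := cos_two_pos hx
  have h3 : cos x ^ 2 ≤ 1 := cos_sq_le_one x
  rw [cos_two_mul] at h2
  obtain ⟨h4, h5⟩ := Pj_defect j h3
  have h6 := Pj_nonneg j h3 h1.le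
  set y := (Pj j).eval (cos x) with hy
  have h7 : (1 - cos x ^ 2) ^ 2 ^ j ≤ dl j :=
    pow_le_pow_left₀ (by linarith) (by linarith) _
  have h8 : y ≤ 1 := by nlinarith
  refine ⟨h6, h8, ?_, by linarith⟩
  nlinarith

theorem no_few {j N : ℕ} (h : HasQuadrature (wt 1 (√2)) (2 * 3 ^ j) N) :
    0 < N ∧ 1 ≤ 14 * (N : ℝ) ^ 2 * dl j := by
  obtain ⟨θ, w, -, hθ⟩ := h
  set P := Pj j with hP
  have hPc : Continuous fun x => P.eval (cos x) := by fun_prop
  have hPi : Continuous fun x => P.eval (-cos x) := by fun_prop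
  -- the three integrals
  set m1 := mass (fun _ => 1) with hm1
  set mP := mass (fun x => P.eval (cos x)) with hmP
  set mE := mass (fun x => 1 - P.eval (cos x) ^ 2) with hmE
  have hm1p : 0 < m1 := mass_one_pos
  have hper : ∀ x, P.eval (cos (x + 2 * π)) = P.eval (cos x) := by
    intro x; rw [cos_add_two_pi]
  have t1 : IsTrigPoly (2 * 3 ^ j) fun _ => (1 : ℝ) := by
    simpa using trig_cos (n := 2 * 3 ^ j) (1 : ℝ[X]) (by simp)
  have t2 : IsTrigPoly (2 * 3 ^ j) fun x => P.eval (cos x) :=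
    trig_cos P ((Pj_deg j).trans (by omega))
  have t3 : IsTrigPoly (2 * 3 ^ j) fun x => 1 - P.eval (cos x) ^ 2 := by
    have := trig_cos (n := 2 * 3 ^ j) (1 - P ^ 2) (by
      refine (natDegree_sub_le _ _).trans (max_le (by simp) ?_)
      exact (natDegree_pow_le).trans (Nat.mul_le_mul le_rfl (Pj_deg j)))
    simpa using this
  have i1 : (1 + √2) * m1 = w * N := by
    have := hθ _ t1
    rw [int_wt 1 (√2) (fun _ => 1) continuous_const (fun _ => rfl)] at this
    rw [hm1, ← mass_const_mul, mass]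
    simpa using this
  have i2 : (1 - √2) * mP = w * ∑ i, P.eval (cos (θ i)) := by
    have := hθ _ t2
    rw [int_wt 1 (√2) (fun x => P.eval (cos x)) hPc hper] at this
    rw [hmP, ← mass_const_mul, mass, ← this]
    congr 1
    funext x
    simp only [cos_pi_sub, hP, Pj_neg]
    ring
  have i3 : (1 + √2) * mE = w * ∑ i, (1 - P.eval (cos (θ i)) ^ 2) := by
    have := hθ _ t3
    rw [int_wt 1 (√2) (fun x => 1 - P.eval (cos x) ^ 2) (by fun_prop)
      (fun x => by simp only [hper])] at this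
    rw [hmE, ← mass_const_mul, mass, ← this]
    congr 1
    funext x
    simp only [cos_pi_sub, hP, Pj_neg]
    ring
  -- bounds for the masses
  have hd0 : 0 < dl j := by unfold dl; positivity
  have b1 : mP ≤ m1 := mass_mono hPc continuous_const fun x hx => (arc_bounds j hx).2.1
  have b2 : (1 - dl j) * m1 ≤ mP := by
    rw [hm1, ← mass_const_mul]
    refine mass_mono (by fun_prop) hPc fun x hx => ?_
    simpa using (arc_bounds j hx).2.2.1
  have b3 : mE ≤ dl j * m1 := by
    rw [hm1, ← mass_const_mul]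
    refine mass_mono (by fun_prop) (by fun_prop) fun x hx => ?_
    simpa using (arc_bounds j hx).2.2.2
  -- number of nodes
  have hs2 : 0 < √2 := by positivity
  have hs22 : √2 * √2 = 2 := mul_self_sqrt (by norm_num)
  have hs23 : √2 < 3 / 2 := by nlinarith
  have hs24 : 1 < √2 := by nlinarith
  have hN0 : 0 < N := by
    rcases Nat.eq_zero_or_pos N with h | h
    · rw [h] at i1
      have : 0 < (1 + √2) * m1 := by positivity
      rw [i1] at this
      simp at this
    · exact h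
  have hNr : (0 : ℝ) < N := by exact_mod_cast hN0
  have hw : 0 < w := by
    have : 0 < w * N := by rw [← i1]; positivity
    exact (pos_iff_pos_of_mul_pos this).2 hNr
  refine ⟨hN0, ?_⟩
  -- signs of the nodes
  set ε : Fin N → ℤ := fun i => if 0 ≤ P.eval (cos (θ i)) then 1 else -1 with hε
  have h3 : ∀ i, |P.eval (cos (θ i)) - (ε i : ℝ)| ≤ 1 - P.eval (cos (θ i)) ^ 2 ∧
      |(ε i : ℝ)| ≤ 1 := by
    intro i
    have hs := (Pj_defect j (cos_sq_le_one (θ i))).1
    rw [← hP] at hs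
    set y := P.eval (cos (θ i)) with hy
    have l1 : y ≤ 1 := by nlinarith
    have l2 : -1 ≤ y := by nlinarith
    by_cases h : 0 ≤ y
    · have e : ε i = 1 := by simp [hε, ← hy, h]
      rw [e, abs_le]
      push_cast
      refine ⟨⟨by nlinarith, by nlinarith⟩, by simp⟩
    · have e : ε i = -1 := by simp [hε, ← hy, h]
      push Not at h
      rw [e, abs_le]
      push_cast
      refine ⟨⟨by nlinarith, by nlinarith⟩, by simp⟩
  set D : ℤ := ∑ i, ε i with hD
  have h5 : ∑ i, (ε i : ℝ) = (D : ℝ) := by rw [hD]; push_cast; rfl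
  have h4 : |∑ i, P.eval (cos (θ i)) - D| ≤ ∑ i, (1 - P.eval (cos (θ i)) ^ 2) := by
    rw [← h5, ← sum_sub_distrib]
    exact (abs_sum_le_sum_abs _ _).trans (sum_le_sum fun i _ => (h3 i).1)
  have h6 : |(D : ℝ)| ≤ N := by
    rw [← h5]
    refine (abs_sum_le_sum_abs _ _).trans ?_
    refine (sum_le_sum fun i _ => (h3 i).2).trans ?_
    simp
  -- the sums
  have g3 : ∑ i, (1 - P.eval (cos (θ i)) ^ 2) ≤ N * dl j := by
    have : w * ∑ i, (1 - P.eval (cos (θ i)) ^ 2) ≤ w * (N * dl j) := by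
      rw [← i3]
      have h7 : (1 + √2) * mE ≤ (1 + √2) * (dl j * m1) :=
        mul_le_mul_of_nonneg_left b3 (by positivity)
      have h8 : (1 + √2) * (dl j * m1) = w * (N * dl j) := by
        linear_combination dl j * i1
      linarith
    exact le_of_mul_le_mul_left this hw
  -- `β = 2 √2 - 3`
  have g2 : |∑ i, P.eval (cos (θ i)) - N * (2 * √2 - 3)| ≤ N * dl j := by
    have hβ : (1 + √2) * (2 * √2 - 3) = 1 - √2 := by nlinarith
    have h9 : w * (∑ i, P.eval (cos (θ i)) - N * (2 * √2 - 3)) = (√2 - 1) * (m1 - mP) := by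
      have : w * (N * (2 * √2 - 3)) = (1 - √2) * m1 := by
        rw [← hβ]
        linear_combination (-(2 * √2 - 3)) * i1
      rw [mul_sub, this, ← i2]
      ring
    have h10 : 0 ≤ (√2 - 1) * (m1 - mP) := mul_nonneg (by linarith) (by linarith)
    have h11 : (√2 - 1) * (m1 - mP) ≤ w * (N * dl j) := by
      have h12 : w * (N * dl j) = dl j * ((1 + √2) * m1) := by rw [i1]; ring
      rw [h12]
      have h13 : m1 - mP ≤ dl j * m1 := by linarith
      have h14 : (√2 - 1) * (m1 - mP) ≤ (√2 - 1) * (dl j * m1) :=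
        mul_le_mul_of_nonneg_left h13 (by linarith)
      have h15 : 0 ≤ dl j * m1 := by positivity
      nlinarith
    rw [abs_le]
    constructor
    · have : 0 ≤ ∑ i, P.eval (cos (θ i)) - N * (2 * √2 - 3) := by
        have h16 : 0 ≤ w * (∑ i, P.eval (cos (θ i)) - N * (2 * √2 - 3)) := by rw [h9]; exact h10
        exact nonneg_of_mul_nonneg_right h16 hw
      have h17 : 0 ≤ N * dl j := by positivity
      linarith
    · have h18 : w * (∑ i, P.eval (cos (θ i)) - N * (2 * √2 - 3)) ≤ w * (N * dl j) := by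
        rw [h9]; exact h11
      exact le_of_mul_le_mul_left h18 hw
  have g4 : |(D : ℝ) + 3 * N - 2 * √2 * N| ≤ 2 * (N * dl j) := by
    rw [abs_le] at h4 g2 ⊢
    constructor <;> nlinarith [h4.1, h4.2, g2.1, g2.2]
  -- arithmetic of √2
  set E : ℤ := D + 3 * N with hE
  have hEr : (E : ℝ) = D + 3 * N := by rw [hE]; push_cast; ring
  have k1 : E ^ 2 ≠ 8 * (N : ℤ) ^ 2 := by
    intro hcon
    have hirr := irrational_sqrt_two
    apply hirr
    refine ⟨(|E| : ℤ) / (2 * N : ℤ), ?_⟩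
    have h20 : (E : ℝ) ^ 2 = 8 * (N : ℝ) ^ 2 := by exact_mod_cast hcon
    have h21 : |(E : ℝ)| / (2 * N) = √2 := by
      rw [eq_comm, sqrt_eq_iff_mul_self_eq (by norm_num) (by positivity)]
      rw [div_mul_div_comm, ← sq, sq_abs, h20]
      field_simp
      norm_num
    rw [← h21]
    push_cast
    ring
  have k2 : (1 : ℝ) ≤ |(E : ℝ) ^ 2 - 8 * (N : ℝ) ^ 2| := by
    have h22 : 1 ≤ |E ^ 2 - 8 * (N : ℤ) ^ 2| := Int.one_le_abs (sub_ne_zero.2 k1)
    exact_mod_cast h22
  have k3 : (E : ℝ) ^ 2 - 8 * (N : ℝ) ^ 2 = (E - 2 * √2 * N) * (E + 2 * √2 * N) := by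
    linear_combination (4 * (N : ℝ) ^ 2) * hs22
  have k4 : |(E : ℝ) + 2 * √2 * N| ≤ 7 * N := by
    rw [hEr]
    obtain ⟨h23, h24⟩ := abs_le.1 h6
    have h25 : 2 * √2 * N ≤ 3 * N := by nlinarith
    have h26 : 0 ≤ 2 * √2 * N := by positivity
    rw [abs_le]
    constructor <;> linarith
  rw [← hEr] at g4
  rw [k3, abs_mul] at k2
  calc (1 : ℝ) ≤ |(E : ℝ) - 2 * √2 * N| * |(E : ℝ) + 2 * √2 * N| := k2
    _ ≤ (2 * (N * dl j)) * (7 * N) :=
      mul_le_mul g4 k4 (abs_nonneg _) (by positivity)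
    _ = 14 * (N : ℝ) ^ 2 * dl j := by ring

theorem growth (M : ℕ) : ∃ j : ℕ, 14 * ((M : ℝ) * (4 * 3 ^ j)) ^ 2 * dl j < 1 := by
  have h1 : Filter.Tendsto (fun n : ℕ => (n : ℝ) ^ 4 / 2 ^ n) Filter.atTop (nhds 0) :=
    tendsto_pow_const_div_const_pow_of_one_lt 4 one_lt_two
  have h2 : Filter.Tendsto (fun j : ℕ => 2 ^ j) Filter.atTop Filter.atTop :=
    tendsto_pow_atTop_atTop_of_one_lt (by norm_num)
  have h3 := (h1.comp h2).const_mul (224 * (M : ℝ) ^ 2)
  rw [mul_zero] at h3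
  obtain ⟨j, hj⟩ := (h3.eventually_lt_const one_pos).exists
  refine ⟨j, lt_of_le_of_lt ?_ hj⟩
  simp only [Function.comp_apply]
  unfold dl
  have h4 : (((2 : ℕ) ^ j : ℕ) : ℝ) ^ 4 = (16 : ℝ) ^ j := by
    push_cast
    rw [← pow_mul, mul_comm, pow_mul]
    norm_num
  rw [h4]
  have h5 : ((3 : ℝ) ^ j) ^ 2 ≤ 16 ^ j := by
    rw [← pow_mul, mul_comm, pow_mul]
    exact pow_le_pow_left₀ (by norm_num) (by norm_num) j
  have h6 : ((1 : ℝ) / 2) ^ 2 ^ j = 1 / 2 ^ 2 ^ j := by rw [one_div_pow]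
  rw [h6]
  have h7 : 14 * ((M : ℝ) * (4 * 3 ^ j)) ^ 2 * (1 / 2 ^ 2 ^ j) =
      224 * (M : ℝ) ^ 2 * (((3 : ℝ) ^ j) ^ 2 / 2 ^ 2 ^ j) := by ring
  rw [h7]
  apply mul_le_mul_of_nonneg_left _ (by positivity)
  exact div_le_div_of_nonneg_right h5 (by positivity)

/-! ### The result -/

/-- the two weights -/
noncomputable def Ws : Fin 2 → ℝ → ℝ := ![wt 1 1, wt (√2) (√2)]

theorem locally_in : LocallyIn Ws (wt 1 (√2)) := by
  intro x
  by_cases h : 0 < cos x
  · refine ⟨{y | 0 < cos y}, isOpen_lt continuous_const continuous_cos, h, 0, fun y hy => ?_⟩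
    have hy' : 0 < cos y := hy
    simp [Ws, wt, hy']
  · refine ⟨{y | cos y < 1 / 2}, isOpen_lt continuous_cos continuous_const, ?_, 1, fun y hy => ?_⟩
    · push Not at h
      show cos x < 1 / 2
      linarith
    · have hy' : cos y < 1 / 2 := hy
      simp only [Ws, wt, Matrix.cons_val_one, Matrix.cons_val_fin_one, ite_self]
      by_cases h2 : 0 < cos y
      · have : den y = 0 := by
          apply den_zero
          rw [cos_two_mul]
          nlinarith
        rw [this]; simp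
      · rw [if_neg h2]

theorem Ws_weight (i : Fin 2) : IsWeight (Ws i) := by
  fin_cases i
  · exact weight_wt one_pos one_pos
  · exact weight_wt (by positivity) (by positivity)

theorem Ws_quad (i : Fin 2) (n : ℕ) : HasQuadrature (Ws i) (2 * n) (2 * n + 2) := by
  have e : 2 * n + 2 = (n + 1) * 2 := by ring
  rw [e]
  fin_cases i
  · exact quad_sym 1 (2 * n) (n + 1) (by omega) (by omega)
  · exact quad_sym (√2) (2 * n) (n + 1) (by omega) (by omega)

theorem main (M : ℕ) : ∃ n : ℕ, 1 ≤ n ∧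
    M * ⨆ i, minNodes (Ws i) n < minNodes (wt 1 (√2)) n := by
  obtain ⟨j, hj⟩ := growth M
  have h3 : 1 ≤ 3 ^ j := Nat.one_le_pow _ _ (by norm_num)
  refine ⟨2 * 3 ^ j, by omega, ?_⟩
  have h1 : (⨆ i, minNodes (Ws i) (2 * 3 ^ j)) ≤ ((4 * 3 ^ j : ℕ) : ℕ∞) := by
    refine iSup_le fun i => ?_
    refine (iInf₂_le (2 * 3 ^ j + 2) (Ws_quad i (3 ^ j))).trans ?_
    exact_mod_cast (by omega : 2 * 3 ^ j + 2 ≤ 4 * 3 ^ j)
  have h2 : ((M * (4 * 3 ^ j) + 1 : ℕ) : ℕ∞) ≤ minNodes (wt 1 (√2)) (2 * 3 ^ j) := by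
    refine le_iInf₂ fun N hN => ?_
    obtain ⟨-, h4⟩ := no_few hN
    have h5 : M * (4 * 3 ^ j) < N := by
      by_contra hcon
      push Not at hcon
      have h6 : (N : ℝ) ≤ M * (4 * 3 ^ j) := by exact_mod_cast hcon
      have h7 : (N : ℝ) ^ 2 ≤ ((M : ℝ) * (4 * 3 ^ j)) ^ 2 :=
        pow_le_pow_left₀ (by positivity) h6 2
      have hd0 : 0 < dl j := by unfold dl; positivity
      have h8 : 14 * (N : ℝ) ^ 2 * dl j ≤ 14 * ((M : ℝ) * (4 * 3 ^ j)) ^ 2 * dl j :=
        mul_le_mul_of_nonneg_right (by linarith) hd0.le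
      linarith
    exact_mod_cast h5
  calc (M : ℕ∞) * ⨆ i, minNodes (Ws i) (2 * 3 ^ j) ≤ M * ((4 * 3 ^ j : ℕ) : ℕ∞) := by gcongr
    _ = ((M * (4 * 3 ^ j) : ℕ) : ℕ∞) := by push_cast; ring
    _ < ((M * (4 * 3 ^ j) + 1 : ℕ) : ℕ∞) := by exact_mod_cast Nat.lt_succ_self _
    _ ≤ _ := h2

/-- There are weights `W₁, W₂, W` such that `W` agrees near every point with `W₁` or with `W₂`,
quadratures of degree `2 n` with `2 n + 2` nodes exist for `W₁` and `W₂`, and the ratio
`N_W(n) / max (N_{W₁}(n), N_{W₂}(n))` is unbounded. In particular the statement of Q1 is false. -/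
theorem result : (∃ (Ws : Fin 2 → ℝ → ℝ) (W : ℝ → ℝ), (∀ i, IsWeight (Ws i)) ∧ IsWeight W ∧
    LocallyIn Ws W ∧ (∀ i n, HasQuadrature (Ws i) (2 * n) (2 * n + 2)) ∧
    ∀ M : ℕ, ∃ n : ℕ, 1 ≤ n ∧ M * ⨆ i, minNodes (Ws i) n < minNodes W n) ∧ ¬ Q1 := by
  refine ⟨⟨Ws, wt 1 (√2), Ws_weight, weight_wt one_pos (by positivity), locally_in, Ws_quad,
    main⟩, fun hQ => ?_⟩
  obtain ⟨M, hM⟩ := hQ 2 Ws (wt 1 (√2)) (by norm_num) Ws_weight
    (weight_wt one_pos (by positivity)) locally_in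
  obtain ⟨n, hn, h⟩ := main M
  exact absurd (hM n hn).1 (not_le.2 h)

end Pool.Agent.Results.MP_c62d6e_an.NotLocal
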